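import Pool.Agent.Helper87_PP.Cma
import Pool.Agent.Helper66_PP.StmtsJ
import Pool.Agent.Helper20_PP.Ibr

/-!
# Squad PP, modules CM1 and CM2 (AWC_J, 8.2 and 8.3)
-/

open scoped BigOperators

noncomputable section

namespace Pool.Agent.PP.H87

open Pool.Agent.Helper51_AWC Pool.Agent.Helper79_WRA Pool.Agent.PP Pool.Agent.AWR.H39

section transport

variable {F : Type} [Field F]

/-- defect zero is preserved by isomorphisms -/
theorem dz_equiv {ℓ : ℕ} {N N' : Type} [Group N] [Group N'] (θ : N ≃* N') {b : N → F}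
    (hb : DZ ℓ b) : DZ ℓ (fun t : N' => b (θ.symm t)) := by
  have key : ∀ x : N, (fun t : N' => clsum F ⊤ x (θ.symm t)) = clsum F ⊤ (θ x) := by
    intro x
    classical
    funext t
    unfold clsum
    have e : (∃ q ∈ (⊤ : Subgroup N), θ.symm t = q * x * q⁻¹) ↔
        ∃ q ∈ (⊤ : Subgroup N'), t = q * θ x * q⁻¹ := by
      constructor
      · rintro ⟨q, _, h⟩
        refine ⟨θ q, Subgroup.mem_top _, ?_⟩
        rw [← map_inv, ← map_mul, ← map_mul, ← h, θ.apply_symm_apply]
      · rintro ⟨q, _, h⟩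
        refine ⟨θ.symm q, Subgroup.mem_top _, ?_⟩
        rw [h, map_mul, map_mul, map_inv, θ.symm_apply_apply]
    by_cases h : ∃ q ∈ (⊤ : Subgroup N), θ.symm t = q * x * q⁻¹
    · rw [if_pos h, if_pos (e.1 h)]
    · rw [if_neg h, if_neg (fun hh => h (e.2 hh))]
  unfold DZ at hb ⊢
  induction hb using Submodule.span_induction with
  | zero => exact Submodule.zero_mem _
  | add f g _ _ hf hg => exact Submodule.add_mem _ hf hg
  | smul c f _ hf => exact Submodule.smul_mem _ c hf
  | mem f hf =>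
    obtain ⟨x, hx, rfl⟩ := hf
    rw [key]
    refine Submodule.subset_span ⟨θ x, ?_, rfl⟩
    have : Nat.card (Subgroup.centralizer ({θ x} : Set N')) =
        Nat.card (Subgroup.centralizer ({x} : Set N)) := by
      refine Nat.card_congr
        { toFun := fun c => ⟨θ.symm c, ?_⟩
          invFun := fun c => ⟨θ c, ?_⟩
          left_inv := fun c => Subtype.ext (θ.apply_symm_apply _)
          right_inv := fun c => Subtype.ext (θ.symm_apply_apply _) }
      · have := Subgroup.mem_centralizer_singleton_iff.1 c.2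
        refine Subgroup.mem_centralizer_singleton_iff.2 ?_
        have h := congrArg θ.symm this
        rwa [map_mul, map_mul, θ.symm_apply_apply] at h
      · have := Subgroup.mem_centralizer_singleton_iff.1 c.2
        refine Subgroup.mem_centralizer_singleton_iff.2 ?_
        rw [← map_mul, ← map_mul, this]
    rwa [this]

variable {Y : Type} [Group Y] [Finite Y]

/-- products and automorphisms -/
theorem mulF_comp (φ : MulAut Y) (a b : Y → F) :
    mulF (fun y => a (φ y)) (fun y => b (φ y)) = fun y => mulF a b (φ y) := by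
  funext y
  have := Fintype.ofFinite Y
  unfold mulF
  rw [finsum_eq_sum_of_fintype, finsum_eq_sum_of_fintype]
  refine Eq.trans ?_ (Equiv.sum_comp φ.toEquiv (fun t => a t * b (t⁻¹ * φ y)))
  refine Finset.sum_congr rfl fun t _ => ?_
  change a (φ t) * b (φ (t⁻¹ * y)) = a (φ t) * b ((φ t)⁻¹ * φ y)
  rw [map_mul, map_inv]

/-- transport of a block of a subgroup along an automorphism -/
theorem transport_blk {ℓ : ℕ} (φ : MulAut Y) {f : Y → F} (hf : ∀ y, f (φ y) = f y)
    {K K' : Subgroup Y} (h : K.map φ.toMonoidHom = K') {b : K → F}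
    (hb : mulF (ext0 K b) f = f) (hDZ : DZ ℓ b) :
    ∃ b' : K' → F, mulF (ext0 K' b') f = f ∧ DZ ℓ b' := by
  classical
  subst h
  refine ⟨fun t => b ((φ.subgroupMap K).symm t), ?_, dz_equiv (φ.subgroupMap K) hDZ⟩
  have e1 : ext0 (K.map φ.toMonoidHom) (fun t => b ((φ.subgroupMap K).symm t)) =
      fun y => ext0 K b (φ⁻¹ y) := by
    funext y
    unfold ext0
    by_cases hy : φ⁻¹ y ∈ K
    · have hy' : y ∈ K.map φ.toMonoidHom := ⟨φ⁻¹ y, hy, MulAut.apply_inv_self (M := Y) φ y⟩
      rw [dif_pos hy, dif_pos hy']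
      congr 1
    · have hy' : y ∉ K.map φ.toMonoidHom := by
        rintro ⟨k, hk, rfl⟩
        apply hy
        have : φ⁻¹ (φ.toMonoidHom k) = k := MulAut.inv_apply_self (M := Y) φ k
        rw [this]; exact hk
      rw [dif_neg hy, dif_neg hy']
  have e2 : f = fun y => f (φ⁻¹ y) := by
    funext y
    have := hf (φ⁻¹ y)
    rw [MulAut.apply_inv_self] at this
    exact this
  rw [e1]
  conv_lhs => rw [e2]
  rw [mulF_comp, hb]
  exact e2.symm

/-- CMB (8.2, first half): if the components are permuted transitively by automorphisms fixing `f`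
and `f` does not have defect zero then no component has defect zero. -/
theorem cmb {ℓ : ℕ} (hF : GoodF ℓ F) {I : Type} [Finite I] (K : I → Subgroup Y)
    (hc : ∀ i j, i ≠ j → ∀ x ∈ K i, ∀ y ∈ K j, x * y = y * x) (hsup : (⨆ i, K i) = ⊤)
    (hZ : ¬ ℓ ∣ Nat.card (Subgroup.center Y)) (f : Y → F) (hf : IsCl f) (hDZ : ¬ DZ ℓ f)
    (htr : ∀ i j, ∃ φ : MulAut Y, (∀ y, f (φ y) = f y) ∧ (K i).map φ.toMonoidHom = K j)
    (i : I) (f₁ : K i → F) (hff : mulF (ext0 (K i) f₁) f = f) : ¬ DZ ℓ f₁ := by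
  intro h1
  apply hDZ
  have key : ∀ j, ∃ b' : K j → F, mulF (ext0 (K j) b') f = f ∧ DZ ℓ b' := by
    intro j
    obtain ⟨φ, hφ, hm⟩ := htr i j
    exact transport_blk φ hφ hm hff h1
  choose g hg hgDZ using key
  exact cma hF K hc hsup hZ f hf g hg hgDZ

end transport

section coeff

variable {F : Type} [Field F]

open Classical in
/-- a class function is a combination of class sums -/
theorem cl_expand {K : Type} [Group K] [Finite K] [Fintype (ConjClasses K)] {b : K → F}
    (hb : IsCl b) : b = ∑ C : ConjClasses K, b (Quotient.out C) • clsum F ⊤ (Quotient.out C) := by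
  funext x
  rw [Finset.sum_apply]
  have h1 : IsConj x (Quotient.out (ConjClasses.mk x)) :=
    ConjClasses.mk_eq_mk_iff_isConj.1 (Quotient.out_eq (ConjClasses.mk x)).symm
  have h2 : ∀ C : ConjClasses K, (b (Quotient.out C) • clsum F ⊤ (Quotient.out C)) x =
      if C = ConjClasses.mk x then b x else 0 := by
    intro C
    rw [Pi.smul_apply, smul_eq_mul]
    by_cases hC : C = ConjClasses.mk x
    · subst hC
      obtain ⟨y, hy⟩ := isConj_iff.1 h1
      have e1 : clsum F ⊤ (Quotient.out (ConjClasses.mk x)) x = 1 := by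
        unfold clsum
        rw [if_pos]
        exact ⟨y⁻¹, Subgroup.mem_top _, by rw [← hy]; group⟩
      rw [if_pos rfl, e1, mul_one, ← hy, hb]
    · have e1 : clsum F ⊤ (Quotient.out C) x = 0 := by
        unfold clsum
        rw [if_neg]
        rintro ⟨q, _, hq⟩
        apply hC
        rw [← Quotient.out_eq C]
        exact ConjClasses.mk_eq_mk_iff_isConj.2 (isConj_iff.2 ⟨q, hq.symm⟩)
      rw [if_neg hC, e1, mul_zero]
  rw [Finset.sum_congr rfl fun C _ => h2 C, Finset.sum_ite_eq']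
  simp

/-- a class function not of defect zero has a coefficient at a class of positive defect -/
theorem exists_coeff {ℓ : ℕ} {K : Type} [Group K] [Finite K] {b : K → F} (hb : IsCl b)
    (h : ¬ DZ ℓ b) :
    ∃ x : K, b x ≠ 0 ∧ ℓ ∣ Nat.card (Subgroup.centralizer ({x} : Set K)) := by
  by_contra hcon
  push Not at hcon
  apply h
  have := Fintype.ofFinite (ConjClasses K)
  unfold DZ
  rw [cl_expand hb]
  refine Submodule.sum_mem _ fun C _ => ?_
  by_cases hC : b (Quotient.out C) = 0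
  · rw [hC, zero_smul]; exact Submodule.zero_mem _
  · exact Submodule.smul_mem _ _ (Submodule.subset_span ⟨_, hcon _ hC, rfl⟩)

/-- central elements of order prime to `ℓ` act on blocks by scalars -/
theorem central_scalar {ℓ : ℕ} (hF : GoodF ℓ F) {K : Type} [Group K] [Finite K] {b : K → F}
    (hb : IsBlk b) {z : K} (hz : ∀ g, z * g = g * z) {m : ℕ} (hm : z ^ m = 1)
    (hml : ¬ ℓ ∣ m) : ∃ c : F, ∀ h, b (z⁻¹ * h) = c * b h := by
  classical
  have hchar := hF.char
  have hm0 : (m : F) ≠ 0 := by rwa [Ne, CharP.cast_eq_zero_iff F ℓ]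
  -- an irreducible representation on which `b` does not vanish
  obtain ⟨n, ρ, hρ, hρb⟩ : ∃ (n : ℕ) (ρ : K →* Matrix (Fin n) (Fin n) F), IsIrr ρ ∧
      ev ρ b ≠ 0 := by
    by_contra hcon
    push Not at hcon
    obtain ⟨k, hk⟩ := H20.ibn ℓ F hF K b (fun n ρ hρ => hcon n ρ hρ)
    have h1 : ∀ k, (mulF b)^[k] b = b := by
      intro k
      induction k with
      | zero => rfl
      | succ k ih => rw [Function.iterate_succ_apply', ih, hb.1.2]
    rw [h1] at hk
    exact hb.2.1 hk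
  have hev : ∀ a : K → F, ev ρ a = repA ρ (ma a) := fun a => ev_eq ρ a
  -- the scalar
  have hcl : IsCl (dl F z) := by
    intro x y
    unfold dl
    have : y * x * y⁻¹ = z ↔ x = z := by
      constructor
      · intro h
        have : x = y⁻¹ * (y * x * y⁻¹) * y := by group
        rw [this, h, mul_assoc, hz y]; group
      · rintro rfl
        rw [← hz y]; group
    by_cases h : x = z
    · rw [if_pos h, if_pos (this.2 h)]
    · rw [if_neg h, if_neg (fun hh => h (this.1 hh))]
  obtain ⟨c, hc, -, -⟩ := H20.eig F K n ρ hρ (dl F z) hcl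
  have hρz : ρ z = Matrix.scalar (Fin n) c := by
    rw [← hc, hev, ma_dl, repA_single, one_smul]
  have hcm : c ^ m = 1 := by
    have h1 : ρ (z ^ m) = 1 := by rw [hm, map_one]
    rw [map_pow, hρz, ← map_pow] at h1
    have hn := hρ.1
    have h2 := congrFun (congrFun h1 ⟨0, hn⟩) ⟨0, hn⟩
    rw [Matrix.scalar_apply, Matrix.diagonal_apply_eq, Matrix.one_apply_eq] at h2
    exact h2
  have hc0 : c ≠ 0 := by
    rintro rfl
    have : m ≠ 0 := by rintro rfl; exact hml (dvd_zero _)
    rw [zero_pow this] at hcm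
    exact zero_ne_one hcm
  -- the idempotent
  set w : MonoidAlgebra F K := c⁻¹ • MonoidAlgebra.single z 1 with hw
  have hwc : w ∈ Subalgebra.center F (MonoidAlgebra F K) := by
    rw [hw, ← ma_dl]
    exact Subalgebra.smul_mem _ ((isCl_iff _).1 hcl) _
  have hsm : ∀ j : ℕ, (MonoidAlgebra.single z (1 : F) : MonoidAlgebra F K) ^ j =
      MonoidAlgebra.single (z ^ j) 1 := by
    intro j
    rw [MonoidAlgebra.single_pow, one_pow]
  have hwm : w ^ m = 1 := by
    rw [hw, smul_pow, hsm, hm, inv_pow, hcm, inv_one, one_smul]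
    rfl
  set E : MonoidAlgebra F K := (m : F)⁻¹ • ∑ j ∈ Finset.range m, w ^ j with hE
  have hwE : w * E = E := by
    rw [hE, mul_smul_comm, Finset.mul_sum]
    congr 1
    have h1 : ∑ j ∈ Finset.range m, w * w ^ j = ∑ j ∈ Finset.range m, w ^ (j + 1) :=
      Finset.sum_congr rfl fun j _ => (pow_succ' w j).symm
    rw [h1]
    have h2 := Finset.sum_range_succ' (fun j => w ^ j) m
    rw [Finset.sum_range_succ, hwm, pow_zero] at h2
    exact (add_right_cancel h2).symm
  have hwjE : ∀ j : ℕ, w ^ j * E = E := by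
    intro j
    induction j with
    | zero => rw [pow_zero, one_mul]
    | succ j ih => rw [pow_succ, mul_assoc, hwE, ih]
  have hEE : E * E = E := by
    conv_lhs => rw [hE]
    rw [smul_mul_assoc, Finset.sum_mul, Finset.sum_congr rfl fun j _ => hwjE j,
      Finset.sum_const, Finset.card_range, ← Nat.cast_smul_eq_nsmul F, smul_smul,
      inv_mul_cancel₀ hm0, one_smul]
  have hEc : E ∈ Subalgebra.center F (MonoidAlgebra F K) := by
    rw [hE]
    exact Subalgebra.smul_mem _ (Subalgebra.sum_mem _ fun j _ => Subalgebra.pow_mem _ hwc j) _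
  obtain ⟨e, he⟩ := ma_surjective (F := F) (H := K) E
  have heI : IsIdem e := by
    rw [isIdem_iff, he]; exact ⟨hEc, hEE⟩
  have hne : mulF b e ≠ 0 := by
    intro h0
    apply hρb
    have h1 : repA ρ w = 1 := by
      rw [hw, map_smul, repA_single, one_smul, hρz, ← map_one (Matrix.scalar (Fin n) : F →+* _)]
      have : c⁻¹ • Matrix.scalar (Fin n) c = Matrix.scalar (Fin n) (c⁻¹ * c) := by
        rw [Matrix.scalar_apply, Matrix.scalar_apply]
        ext i j
        by_cases hij : i = j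
        · subst hij; simp
        · simp [hij]
      rw [this, inv_mul_cancel₀ hc0]
    have h2 : repA ρ E = 1 := by
      rw [hE, map_smul, map_sum, Finset.sum_congr rfl fun j _ => by rw [map_pow, h1, one_pow],
        Finset.sum_const, Finset.card_range, ← Nat.cast_smul_eq_nsmul F, smul_smul,
        inv_mul_cancel₀ hm0, one_smul]
    have h3 : repA ρ (ma (mulF b e)) = repA ρ (ma b) := by
      rw [ma_mul, he, map_mul, h2, mul_one]
    rw [hev, ← h3, h0, ma_zero, map_zero]
  have hbe : mulF b e = b := by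
    rcases hb.2.2 e heI with h | h
    · exact h
    · exact absurd h hne
  refine ⟨c, fun h => ?_⟩
  have h1 : MonoidAlgebra.single z 1 * ma b = c • ma b := by
    have h2 : ma b = E * ma b := by
      conv_lhs => rw [← hbe, ma_mul, he]
      exact (Subalgebra.mem_center_iff.1 hEc (ma b))
    have h3 : MonoidAlgebra.single z 1 = c • w := by
      rw [hw, smul_smul, mul_inv_cancel₀ hc0, one_smul]
    rw [h2, ← mul_assoc, h3, smul_mul_assoc, hwE, smul_mul_assoc]
  have h2 : mulF (dl F z) b = c • b := by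
    apply ma_injective
    rw [ma_mul, ma_dl, ma_smul, h1]
  have h3 : mulF (dl F z) b h = b (z⁻¹ * h) := by
    have := Fintype.ofFinite K
    unfold mulF
    rw [finsum_eq_sum_of_fintype, Finset.sum_eq_single z]
    · unfold dl; rw [if_pos rfl, one_mul]
    · intro t _ ht
      unfold dl; rw [if_neg ht, zero_mul]
    · intro hh; exact absurd (Finset.mem_univ _) hh
  rw [← h3, h2]
  rfl

variable {Y : Type} [Group Y] [Finite Y]

open Classical in
/-- coefficients of a product of functions on commuting subgroups -/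
theorem coeff_prod {K K' : Subgroup Y} {a a' c : Y → F} (ha : ∀ t, t ∉ K → a t = 0)
    (ha' : ∀ t, t ∉ K' → a' t = 0)
    (hs : ∀ z ∈ K ⊓ K', ∀ h ∈ K, ∀ h' ∈ K', a (h * z⁻¹) * a' (z * h') = c z * (a h * a' h'))
    [Fintype Y] {h h' : Y} (hh : h ∈ K) (hh' : h' ∈ K') :
    mulF a a' (h * h') = (∑ z : Y, if z ∈ K ⊓ K' then c z else 0) * (a h * a' h') := by
  unfold mulF
  rw [finsum_eq_sum_of_fintype, Finset.sum_mul,
    ← Equiv.sum_comp ((Equiv.inv Y).trans (Equiv.mulLeft h))]
  refine Finset.sum_congr rfl fun z _ => ?_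
  have e1 : ((Equiv.inv Y).trans (Equiv.mulLeft h)) z = h * z⁻¹ := rfl
  have e2 : (h * z⁻¹)⁻¹ * (h * h') = z * h' := by group
  rw [e1, e2]
  by_cases hz : z ∈ K
  · by_cases hz' : z ∈ K'
    · rw [if_pos ⟨hz, hz'⟩]
      exact hs z ⟨hz, hz'⟩ h hh h' hh'
    · rw [if_neg (fun hcon => hz' hcon.2), zero_mul, ha' (z * h'), mul_zero]
      intro hcon
      exact hz' ((Subgroup.mul_mem_cancel_right K' hh').1 hcon)
  · rw [if_neg (fun hcon => hz hcon.1), zero_mul, ha (h * z⁻¹), zero_mul]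
    intro hcon
    have := (Subgroup.mul_mem_cancel_left K hh).1 hcon
    exact hz ((Subgroup.inv_mem_iff K).1 this)

/-- nonvanishing coefficients of a block of a central product -/
theorem coeff_ne {ℓ : ℕ} (hF : GoodF ℓ F) {K K' : Subgroup Y}
    (hc : ∀ x ∈ K, ∀ y ∈ K', x * y = y * x) (hsup : K ⊔ K' = ⊤)
    (hZ : ¬ ℓ ∣ Nat.card (Subgroup.center Y)) {f : Y → F} (hf : f ≠ 0) {f₁ : K → F}
    {f₂ : K' → F} (h₁ : IsBlk f₁) (h₂ : IsBlk f₂)
    (hm : mulF (ext0 K f₁) (ext0 K' f₂) = f) :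
    ∃ h' : K', ∀ h : K, f₁ h ≠ 0 → f (h * h') ≠ 0 := by
  classical
  have := Fintype.ofFinite Y
  obtain ⟨m, hmdef⟩ : ∃ m, m = Nat.card (Subgroup.center Y) := ⟨_, rfl⟩
  rw [← hmdef] at hZ
  have hcen : ∀ z ∈ K ⊓ K', z ∈ Subgroup.center Y := by
    rintro z ⟨hz1, hz2⟩
    rw [Subgroup.mem_center_iff]
    intro y
    obtain ⟨g, hg, g', hg', rfl⟩ := mem_sup_comm hc (hsup ▸ Subgroup.mem_top y)
    calc g * g' * z = g * (g' * z) := by rw [mul_assoc]
      _ = g * (z * g') := by rw [hc z hz1 g' hg']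
      _ = (g * z) * g' := by rw [mul_assoc]
      _ = (z * g) * g' := by rw [hc g hg z hz2]
      _ = z * (g * g') := by rw [mul_assoc]
  have hzm : ∀ z ∈ Subgroup.center Y, z ^ m = 1 := by
    intro z hz
    have := pow_card_eq_one' (G := Subgroup.center Y) (x := ⟨z, hz⟩)
    rw [hmdef]
    exact congrArg Subtype.val this
  -- scalars of the two factors
  have s1 : ∀ z : Y, ∃ c : F, z ∈ K ⊓ K' → ∀ h ∈ K, ext0 K f₁ (h * z⁻¹) = c * ext0 K f₁ h := by
    intro z
    by_cases hz : z ∈ K ⊓ K'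
    · have hzc := hcen z hz
      obtain ⟨c, hc'⟩ := central_scalar hF h₁ (z := (⟨z, hz.1⟩ : K)) (m := m)
        (fun g => Subtype.ext ((Subgroup.mem_center_iff.1 hzc g).symm))
        (Subtype.ext (hzm z hzc)) hZ
      refine ⟨c, fun _ h hh => ?_⟩
      have e1 : h * z⁻¹ = z⁻¹ * h := by
        have := Subgroup.mem_center_iff.1 (Subgroup.inv_mem _ hzc) h
        exact this
      have e2 : ext0 K f₁ (z⁻¹ * h) = f₁ ((⟨z, hz.1⟩ : K)⁻¹ * ⟨h, hh⟩) := by
        unfold ext0
        rw [dif_pos (K.mul_mem (K.inv_mem hz.1) hh)]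
        rfl
      have e3 : ext0 K f₁ h = f₁ ⟨h, hh⟩ := by unfold ext0; rw [dif_pos hh]
      rw [e1, e2, e3, hc']
    · exact ⟨0, fun h => absurd h hz⟩
  have s2 : ∀ z : Y, ∃ c : F, z ∈ K ⊓ K' → ∀ h ∈ K', ext0 K' f₂ (z * h) = c * ext0 K' f₂ h := by
    intro z
    by_cases hz : z ∈ K ⊓ K'
    · have hzc := Subgroup.inv_mem _ (hcen z hz)
      obtain ⟨c, hc'⟩ := central_scalar hF h₂ (z := (⟨z⁻¹, K'.inv_mem hz.2⟩ : K')) (m := m)
        (fun g => Subtype.ext ((Subgroup.mem_center_iff.1 hzc g).symm))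
        (Subtype.ext (hzm z⁻¹ hzc)) hZ
      refine ⟨c, fun _ h hh => ?_⟩
      have e2 : ext0 K' f₂ (z * h) = f₂ ((⟨z⁻¹, K'.inv_mem hz.2⟩ : K')⁻¹ * ⟨h, hh⟩) := by
        unfold ext0
        rw [dif_pos (K'.mul_mem hz.2 hh)]
        congr 1
        apply Subtype.ext
        change z * h = (z⁻¹)⁻¹ * h
        rw [inv_inv]
      have e3 : ext0 K' f₂ h = f₂ ⟨h, hh⟩ := by unfold ext0; rw [dif_pos hh]
      rw [e2, e3, hc']
    · exact ⟨0, fun h => absurd h hz⟩
  choose c₁ hc₁ using s1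
  choose c₂ hc₂ using s2
  have hprod : ∀ h ∈ K, ∀ h' ∈ K', f (h * h') =
      (∑ z : Y, if z ∈ K ⊓ K' then c₁ z * c₂ z else 0) * (ext0 K f₁ h * ext0 K' f₂ h') := by
    intro h hh h' hh'
    rw [← hm]
    refine coeff_prod (c := fun z => c₁ z * c₂ z) (fun t ht => H46.ext0_of_not_mem f₁ ht)
      (fun t ht => H46.ext0_of_not_mem f₂ ht) ?_ hh hh'
    intro z hz h hh h' hh'
    rw [hc₁ z hz h hh, hc₂ z hz h' hh']
    ring
  have hS : (∑ z : Y, if z ∈ K ⊓ K' then c₁ z * c₂ z else 0) ≠ 0 := by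
    intro h0
    apply hf
    funext y
    obtain ⟨g, hg, g', hg', rfl⟩ := mem_sup_comm hc (hsup ▸ Subgroup.mem_top y)
    rw [hprod g hg g' hg', h0, zero_mul]
    rfl
  obtain ⟨h', hh'⟩ : ∃ h' : K', f₂ h' ≠ 0 := by
    by_contra hcon
    push Not at hcon
    exact h₂.2.1 (funext hcon)
  refine ⟨h', fun h hh => ?_⟩
  rw [hprod h h.2 h' h'.2]
  have e1 : ext0 K f₁ (h : Y) = f₁ h := by
    unfold ext0; rw [dif_pos h.2]
  have e2 : ext0 K' f₂ (h' : Y) = f₂ h' := by
    unfold ext0; rw [dif_pos h'.2]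
  rw [e1, e2]
  exact mul_ne_zero hS (mul_ne_zero hh hh')

end coeff

/-- CMC (8.3): the group `X[f]` normalises the components which do not have defect zero. -/
def CmcStmt : Prop := ∀ (ℓ : ℕ) (F : Type) [Field F], GoodF ℓ F →
  ∀ (X : Type) [Group X] [Finite X] (Y : Subgroup X), Y.Normal → ∀ f : X → F, SBlk Y f →
  ∀ (I : Type) [Finite I] (K : I → Subgroup Y),
  (∀ i j, i ≠ j → ∀ x ∈ K i, ∀ y ∈ K j, x * y = y * x) → (⨆ i, K i) = ⊤ →
  ¬ ℓ ∣ Nat.card (Subgroup.center Y) →
  (∀ (g : X) (i : I), ∃ j, ∀ k ∈ K i, ∃ t ∈ K j, (t : X) = g * k * g⁻¹) →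
  ∀ (i : I) (f₁ : K i → F), BlkU (K i) (fun t : Y => f t) f₁ → ¬ DZ ℓ f₁ →
  ∀ g ∈ XF f Y, ∀ k ∈ K i, ∃ t ∈ K i, (t : X) = g * k * g⁻¹

theorem cmc (hfbk : FbkStmt) (hinn : InnStmt) : CmcStmt := by
  intro ℓ F _ hF X _ _ Y hY f hf I _ K hc hsup hZ hperm i f₁ hf₁ hDZ g hg
  classical
  obtain ⟨K', hK'⟩ : ∃ K', K' = ⨆ j, ⨆ (_ : j ≠ i), K j := ⟨_, rfl⟩
  have hcK : ∀ x ∈ K i, ∀ y ∈ K', x * y = y * x := by
    intro x hx y hy
    have h1 : K' ≤ Subgroup.centralizer ({x} : Set Y) := by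
      rw [hK']
      refine iSup₂_le fun j hj z hz => ?_
      rw [Subgroup.mem_centralizer_singleton_iff]
      exact hc j i hj z hz x hx
    exact (Subgroup.mem_centralizer_singleton_iff.1 (h1 hy)).symm
  have hsupK : K i ⊔ K' = ⊤ := by
    rw [eq_top_iff, ← hsup]
    refine iSup_le fun j => ?_
    by_cases hj : j = i
    · subst hj; exact le_sup_left
    · refine le_trans ?_ le_sup_right
      rw [hK']
      exact le_iSup₂_of_le j hj le_rfl
  have hcK' : ∀ y ∈ K', ∀ x ∈ K i, y * x = x * y := fun y hy x hx => (hcK x hx y hy).symm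
  have hfblk := hf.blk
  obtain ⟨-, -, h3⟩ := hfbk ℓ F hF Y (K i) K' hcK hsupK hZ _ hfblk
  obtain ⟨⟨f₂, hf₂⟩, -, -⟩ := hfbk ℓ F hF Y K' (K i) hcK' (by rw [sup_comm]; exact hsupK) hZ _ hfblk
  have hm := h3 f₁ f₂ hf₁ hf₂
  obtain ⟨h', hh'⟩ := coeff_ne hF hcK hsupK hZ hfblk.2.1 hf₁.1 hf₂.1 hm
  obtain ⟨h, hh, hdvd⟩ := exists_coeff hf₁.1.1.1 hDZ
  have hfact := Fact.mk hF.prime
  obtain ⟨r, hr⟩ := exists_prime_orderOf_dvd_card' ℓ hdvd
  have hrh : (r : K i) * h = h * r := Subgroup.mem_centralizer_singleton_iff.1 r.2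
  obtain ⟨s, hs⟩ : ∃ s : X, s = (((r : K i) : Y) : X) := ⟨_, rfl⟩
  have hso : orderOf s = ℓ := by
    rw [hs, Subgroup.orderOf_coe, Subgroup.orderOf_coe, Subgroup.orderOf_coe]
    exact hr
  have hsY : s ∈ Y := by rw [hs]; exact ((r : K i) : Y).2
  -- the local datum
  have hloc : Loc ℓ Y (Subgroup.zpowers s) (Subgroup.normalizer (Subgroup.zpowers s : Set X)) := by
    refine ⟨?_, ?_, Subgroup.le_normalizer, ?_, le_rfl⟩
    · have : Nat.card (Subgroup.zpowers s) = ℓ ^ 1 := by
        rw [Nat.card_zpowers, hso, pow_one]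
      exact IsPGroup.of_card this
    · rw [Subgroup.zpowers_le]; exact hsY
    · intro x hx
      rw [Subgroup.mem_normalizer_iff]
      intro y
      rw [Subgroup.mem_centralizer_iff] at hx
      constructor
      · intro hy
        have e1 := hx y hy
        have : x * y * x⁻¹ = y := by rw [← e1]; group
        rw [this]; exact hy
      · intro hy
        have e1 := hx _ hy
        have : y = x * y * x⁻¹ := by
          have e2 : x⁻¹ * ((x * y * x⁻¹) * x) = x⁻¹ * (x * (x * y * x⁻¹)) := by rw [e1]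
          have e3 : x⁻¹ * ((x * y * x⁻¹) * x) = y := by group
          have e4 : x⁻¹ * (x * (x * y * x⁻¹)) = x * y * x⁻¹ := by group
          rw [e3, e4] at e2
          exact e2
        rw [this]; exact hy
  have hbr : br (Subgroup.zpowers s) f ≠ 0 := by
    intro h0
    have h1 := hh' h hh
    apply h1
    have h2 := congrFun h0 (((h : Y) * (h' : Y) : Y) : X)
    unfold br at h2
    rw [if_pos] at h2
    · exact h2
    · rw [Subgroup.mem_centralizer_iff]
      intro y hy
      obtain ⟨n, rfl⟩ := Subgroup.mem_zpowers_iff.1 hy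
      have c1 : Commute s (((h : Y) * (h' : Y) : Y) : X) := by
        change s * _ = _ * s
        rw [hs]
        have e1 : ((r : K i) : Y) * ((h : Y) * (h' : Y)) = ((h : Y) * (h' : Y)) * ((r : K i) : Y) := by
          have e2 : ((r : K i) : Y) * (h : Y) = (h : Y) * ((r : K i) : Y) :=
            congrArg Subtype.val hrh
          have e3 : ((r : K i) : Y) * (h' : Y) = (h' : Y) * ((r : K i) : Y) :=
            hcK _ (r : K i).2 _ h'.2
          rw [← mul_assoc, e2, mul_assoc, e3, mul_assoc]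
        exact congrArg Subtype.val e1
      exact (c1.zpow_left n).eq
  obtain ⟨n, hn, hgn⟩ := (hinn ℓ F hF X Y hY f hf _ _ hloc hbr).1 g hg
  obtain ⟨j, hj⟩ := hperm g i
  -- the conjugate of `s`
  have hsn : ∃ t ∈ K i, (t : X) = n * s * n⁻¹ := by
    obtain ⟨a, ha, a', ha', hna⟩ := mem_sup_comm hcK (hsupK ▸ Subgroup.mem_top (⟨n, hn⟩ : Y))
    refine ⟨a * (r : K i) * a⁻¹, (K i).mul_mem ((K i).mul_mem ha (r : K i).2) ((K i).inv_mem ha),
      ?_⟩
    have e1 : (⟨n, hn⟩ : Y) * ((r : K i) : Y) * (⟨n, hn⟩ : Y)⁻¹ = a * (r : K i) * a⁻¹ := by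
      rw [hna]
      have e2 : ((r : K i) : Y) * a' = a' * ((r : K i) : Y) := hcK _ (r : K i).2 _ ha'
      calc a * a' * ((r : K i) : Y) * (a * a')⁻¹ = a * (a' * ((r : K i) : Y)) * (a * a')⁻¹ := by
            simp only [mul_assoc]
        _ = a * (((r : K i) : Y) * a') * (a * a')⁻¹ := by rw [e2]
        _ = _ := by group
    rw [hs]
    exact (congrArg Subtype.val e1).symm
  obtain ⟨t, ht, hts⟩ := hsn
  obtain ⟨t', ht', hts'⟩ := hj t ht
  have hfix : (t' : X) = s := by
    rw [hts', hts]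
    have h1 := (Subgroup.mem_centralizer_iff.1 hgn) s (Subgroup.mem_zpowers s)
    calc g * (n * s * n⁻¹) * g⁻¹ = (g * n * s) * (g * n)⁻¹ := by group
      _ = (s * (g * n)) * (g * n)⁻¹ := by rw [h1]
      _ = s := by group
  have ht'r : t' = ((r : K i) : Y) := Subtype.ext (by rw [hfix, hs])
  have hij : j = i := by
    by_contra hne
    apply hZ
    have hrj : ((r : K i) : Y) ∈ K j := by rw [← ht'r]; exact ht'
    have hcen : ((r : K i) : Y) ∈ Subgroup.center Y := by
      rw [Subgroup.mem_center_iff]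
      intro y
      have h1 : (⊤ : Subgroup Y) ≤ Subgroup.centralizer ({((r : K i) : Y)} : Set Y) := by
        rw [← hsup]
        refine iSup_le fun k w hw => ?_
        rw [Subgroup.mem_centralizer_singleton_iff]
        by_cases hk : k = i
        · subst hk
          exact hc k j (fun h => hne h.symm) w hw _ hrj
        · exact hc k i hk w hw _ (r : K i).2
      exact Subgroup.mem_centralizer_singleton_iff.1 (h1 (Subgroup.mem_top y))
    have h2 : orderOf ((r : K i) : Y) = ℓ := by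
      rw [Subgroup.orderOf_coe, Subgroup.orderOf_coe]; exact hr
    rw [← h2]
    exact Subgroup.orderOf_dvd_natCard _ hcen
  subst hij
  exact hj

end Pool.Agent.PP.H87
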