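import Pool.Agent.Helper39_AWR.Pos3
import Pool.Agent.Helper98_PP.StmtsR2

/-!
# Squad PP, module CM1 (AWC_J, 8.2), part A: if all components have defect zero then so has `f`
-/

open scoped BigOperators

noncomputable section

namespace Pool.Agent.PP.H87

open Pool.Agent.Helper51_AWC Pool.Agent.Helper79_WRA Pool.Agent.PP Pool.Agent.AWR.H39

section grp

variable {Y : Type} [Group Y]

/-- elements of the join of two commuting subgroups are products -/
theorem mem_sup_comm {K K' : Subgroup Y} (hc : ∀ x ∈ K, ∀ y ∈ K', x * y = y * x) {t : Y}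
    (ht : t ∈ K ⊔ K') : ∃ g ∈ K, ∃ g' ∈ K', t = g * g' := by
  let S : Subgroup Y :=
    { carrier := {t | ∃ g ∈ K, ∃ g' ∈ K', t = g * g'}
      one_mem' := ⟨1, K.one_mem, 1, K'.one_mem, (one_mul 1).symm⟩
      mul_mem' := by
        rintro a b ⟨g, hg, g', hg', rfl⟩ ⟨h, hh, h', hh', rfl⟩
        refine ⟨g * h, K.mul_mem hg hh, g' * h', K'.mul_mem hg' hh', ?_⟩
        calc g * g' * (h * h') = g * (g' * h) * h' := by simp only [mul_assoc]
          _ = g * (h * g') * h' := by rw [hc h hh g' hg']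
          _ = g * h * (g' * h') := by simp only [mul_assoc]
      inv_mem' := by
        rintro a ⟨g, hg, g', hg', rfl⟩
        refine ⟨g⁻¹, K.inv_mem hg, g'⁻¹, K'.inv_mem hg', ?_⟩
        rw [mul_inv_rev, hc g⁻¹ (K.inv_mem hg) g'⁻¹ (K'.inv_mem hg')] }
  have h1 : K ⊔ K' ≤ S := by
    apply sup_le
    · intro g hg; exact ⟨g, hg, 1, K'.one_mem, (mul_one g).symm⟩
    · intro g hg; exact ⟨1, K.one_mem, g, hg, (one_mul g).symm⟩
  exact h1 ht

/-- conjugation by `g` and powers of a central element -/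
theorem conj_pow_central {h x z : Y} (hz : h * z = z * h) (e : h * x * h⁻¹ = x * z)
    (j : ℕ) : h ^ j * x * (h ^ j)⁻¹ = x * z ^ j := by
  induction j with
  | zero => simp
  | succ j ih =>
    have e2 : h * z ^ j * h⁻¹ = z ^ j := by
      have : Commute h (z ^ j) := Commute.pow_right hz j
      rw [this.eq]; group
    calc h ^ (j + 1) * x * (h ^ (j + 1))⁻¹ = h * (h ^ j * x * (h ^ j)⁻¹) * h⁻¹ := by
          rw [pow_succ']; group
      _ = h * (x * z ^ j) * h⁻¹ := by rw [ih]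
      _ = (h * x * h⁻¹) * (h * z ^ j * h⁻¹) := by group
      _ = x * z * z ^ j := by rw [e, e2]
      _ = x * z ^ (j + 1) := by rw [mul_assoc, ← pow_succ']

variable [Finite Y]

/-- an element of order `ℓ` gives divisibility -/
theorem dvd_of_pow {ℓ : ℕ} (hℓ : ℓ.Prime) {T : Subgroup Y} {h : Y} (hT : h ∈ T)
    (h1 : h ^ ℓ = 1) (h2 : h ≠ 1) : ℓ ∣ Nat.card T := by
  have ho : orderOf h = ℓ := by
    have := Fact.mk hℓ
    exact orderOf_eq_prime h1 h2
  rw [← ho]
  exact Subgroup.orderOf_dvd_natCard T hT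

/-- centralisers in a product of commuting subgroups -/
theorem card_cent_sup {ℓ : ℕ} (hℓ : ℓ.Prime) {K K' : Subgroup Y}
    (hc : ∀ x ∈ K, ∀ y ∈ K', x * y = y * x) (hZ : ¬ ℓ ∣ Nat.card (K ⊓ K' : Subgroup Y)) {x x' : Y}
    (hx : x ∈ K) (hx' : x' ∈ K')
    (hd : ¬ ℓ ∣ Nat.card (Subgroup.centralizer ({x} : Set Y) ⊓ K : Subgroup Y))
    (hd' : ¬ ℓ ∣ Nat.card (Subgroup.centralizer ({x'} : Set Y) ⊓ K' : Subgroup Y)) :
    ¬ ℓ ∣ Nat.card (Subgroup.centralizer ({x * x'} : Set Y) ⊓ (K ⊔ K') : Subgroup Y) := by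
  intro hdvd
  have := Fact.mk hℓ
  obtain ⟨t, ht⟩ := exists_prime_orderOf_dvd_card' ℓ hdvd
  obtain ⟨ht1, ht2⟩ := t.2
  obtain ⟨g, hg, g', hg', htg⟩ := mem_sup_comm hc ht2
  have hgg : Commute g g' := hc g hg g' hg'
  have hto : orderOf (t : Y) = ℓ := by rw [Subgroup.orderOf_coe]; exact ht
  have htl : (t : Y) ^ ℓ = 1 := by rw [← hto]; exact pow_orderOf_eq_one _
  obtain ⟨m, hm⟩ : ∃ m, m = Nat.card (K ⊓ K' : Subgroup Y) := ⟨_, rfl⟩
  have hgl : g ^ ℓ ∈ (K ⊓ K' : Subgroup Y) := by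
    refine ⟨K.pow_mem hg ℓ, ?_⟩
    have e : g ^ ℓ = (g' ^ ℓ)⁻¹ := by
      rw [htg, hgg.mul_pow] at htl
      exact eq_inv_of_mul_eq_one_left htl
    rw [e]
    exact K'.inv_mem (K'.pow_mem hg' ℓ)
  have hgl' : g' ^ ℓ ∈ (K ⊓ K' : Subgroup Y) := by
    refine ⟨?_, K'.pow_mem hg' ℓ⟩
    have e : g' ^ ℓ = (g ^ ℓ)⁻¹ := by
      rw [htg, hgg.mul_pow] at htl
      exact eq_inv_of_mul_eq_one_right htl
    rw [e]
    exact K.inv_mem (K.pow_mem hg ℓ)
  have pow_m : ∀ z ∈ (K ⊓ K' : Subgroup Y), z ^ m = 1 := by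
    intro z hz
    have := pow_card_eq_one' (G := (K ⊓ K' : Subgroup Y)) (x := ⟨z, hz⟩)
    rw [hm]
    exact congrArg Subtype.val this
  have hh : (g ^ m) ^ ℓ = 1 := by rw [← pow_mul, mul_comm, pow_mul, pow_m _ hgl]
  have hh' : (g' ^ m) ^ ℓ = 1 := by rw [← pow_mul, mul_comm, pow_mul, pow_m _ hgl']
  have htm : (t : Y) ^ m = g ^ m * g' ^ m := by rw [htg, hgg.mul_pow]
  have hne : (t : Y) ^ m ≠ 1 := by
    intro h
    apply hZ
    rw [← hm, ← hto]
    exact orderOf_dvd_of_pow_eq_one h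
  have hKm : g ^ m ∈ K := K.pow_mem hg m
  have hKm' : g' ^ m ∈ K' := K'.pow_mem hg' m
  have hcen : (t : Y) ^ m * (x * x') = (x * x') * (t : Y) ^ m := by
    have h1 := Subgroup.mem_centralizer_singleton_iff.1 ht1
    have h2 : Commute (t : Y) (x * x') := h1
    exact (h2.pow_left m).eq
  obtain ⟨h, hhe⟩ : ∃ h, h = g ^ m := ⟨_, rfl⟩
  obtain ⟨h', hhe'⟩ : ∃ h', h' = g' ^ m := ⟨_, rfl⟩
  rw [← hhe] at hh hKm htm
  rw [← hhe'] at hh' hKm' htm
  rw [htm] at hne hcen
  -- the commutator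
  have e1 : x⁻¹ * (h * x * h⁻¹) = x' * (h' * x' * h'⁻¹)⁻¹ := by
    have a1 : h * h' * (x * x') = (h * x) * (h' * x') := by
      calc h * h' * (x * x') = h * (h' * x) * x' := by simp only [mul_assoc]
        _ = h * (x * h') * x' := by rw [hc x hx h' hKm']
        _ = _ := by simp only [mul_assoc]
    have a2 : (x * x') * (h * h') = (x * h) * (x' * h') := by
      calc (x * x') * (h * h') = x * (x' * h) * h' := by simp only [mul_assoc]
        _ = x * (h * x') * h' := by rw [hc h hKm x' hx']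
        _ = _ := by simp only [mul_assoc]
    rw [a1, a2] at hcen
    -- (x h)⁻¹ (h x) = (x' h') (h' x')⁻¹
    have a3 : (x * h)⁻¹ * (h * x) = (x' * h') * (h' * x')⁻¹ := by
      have : (x * h)⁻¹ * ((h * x) * (h' * x')) * (h' * x')⁻¹ =
          (x * h)⁻¹ * ((x * h) * (x' * h')) * (h' * x')⁻¹ := by rw [hcen]
      simpa [mul_assoc] using this
    have a4 : x⁻¹ * (h * x * h⁻¹) = h * ((x * h)⁻¹ * (h * x)) * h⁻¹ := by group
    have a5 : x' * (h' * x' * h'⁻¹)⁻¹ = (x' * h') * (h' * x')⁻¹ := by group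
    rw [a4, a5, a3]
    have a6 : (x' * h') * (h' * x')⁻¹ ∈ K' :=
      K'.mul_mem (K'.mul_mem hx' hKm') (K'.inv_mem (K'.mul_mem hKm' hx'))
    rw [hc h hKm _ a6]
    group
  have hz1 : x⁻¹ * (h * x * h⁻¹) ∈ K :=
    K.mul_mem (K.inv_mem hx) (K.mul_mem (K.mul_mem hKm hx) (K.inv_mem hKm))
  have hz2 : x⁻¹ * (h * x * h⁻¹) ∈ K' := by
    rw [e1]
    exact K'.mul_mem hx' (K'.inv_mem (K'.mul_mem (K'.mul_mem hKm' hx') (K'.inv_mem hKm')))
  have hcase : ∀ {A : Subgroup Y} {a k : Y}, a ∈ A → k ∈ A → k ^ ℓ = 1 →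
      (∃ z ∈ (K ⊓ K' : Subgroup Y), k * z = z * k ∧ k * a * k⁻¹ = a * z) →
      k * a * k⁻¹ = a := by
    rintro A a k _ _ hk ⟨z, hz, hkz, e⟩
    have h1 := conj_pow_central hkz e ℓ
    rw [hk, one_mul, inv_one, mul_one] at h1
    have h2 : z ^ ℓ = 1 := by
      have : a * 1 = a * z ^ ℓ := by rw [mul_one]; exact h1
      exact (mul_left_cancel this).symm
    have h3 : z ^ m = 1 := pow_m z hz
    have h4 : z = 1 := by
      have h5 : orderOf z ∣ ℓ := orderOf_dvd_of_pow_eq_one h2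
      have h6 : orderOf z ∣ m := orderOf_dvd_of_pow_eq_one h3
      rcases (Nat.dvd_prime hℓ).1 h5 with h7 | h7
      · exact orderOf_eq_one_iff.1 h7
      · exfalso; apply hZ; rw [← hm, ← h7]; exact h6
    rw [e, h4, mul_one]
  have c1 : h * x * h⁻¹ = x := by
    refine hcase hx hKm hh ⟨x⁻¹ * (h * x * h⁻¹), ⟨hz1, hz2⟩, (hc h hKm _ hz2), by group⟩
  have c2 : h' * x' * h'⁻¹ = x' := by
    have : x⁻¹ * (h * x * h⁻¹) = 1 := by rw [c1]; group
    rw [this] at e1
    have e2 := mul_eq_one_iff_eq_inv.1 e1.symm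
    rw [inv_inv] at e2
    exact e2.symm
  have d1 : h ∈ (Subgroup.centralizer ({x} : Set Y) ⊓ K : Subgroup Y) := by
    refine ⟨Subgroup.mem_centralizer_singleton_iff.2 ?_, hKm⟩
    calc h * x = (h * x * h⁻¹) * h := by group
      _ = x * h := by rw [c1]
  have d2 : h' ∈ (Subgroup.centralizer ({x'} : Set Y) ⊓ K' : Subgroup Y) := by
    refine ⟨Subgroup.mem_centralizer_singleton_iff.2 ?_, hKm'⟩
    calc h' * x' = (h' * x' * h'⁻¹) * h' := by group
      _ = x' * h' := by rw [c2]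
  by_cases hh1 : h = 1
  · have hh2 : h' ≠ 1 := by
      intro h2
      apply hne
      rw [hh1, h2, one_mul]
    exact hd' (dvd_of_pow hℓ d2 hh' hh2)
  · exact hd (dvd_of_pow hℓ d1 hh hh1)

end grp

section alg

variable {F Y : Type} [Field F] [Group Y] [Finite Y]

/-- the span of the class sums of defect zero of a subgroup -/
def PCK (F : Type) [Field F] (ℓ : ℕ) (K : Subgroup Y) : Submodule F (Y → F) :=
  Submodule.span F {f : Y → F | ∃ x ∈ K,
    ¬ ℓ ∣ Nat.card (Subgroup.centralizer ({x} : Set Y) ⊓ K : Subgroup Y) ∧ f = clsum F K x}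

theorem mulF_zero_left (b : Y → F) : mulF 0 b = 0 := by
  apply ma_injective; rw [ma_mul, ma_zero, zero_mul]

theorem mulF_add_left (a b c : Y → F) : mulF (a + b) c = mulF a c + mulF b c := by
  apply ma_injective; rw [ma_mul, ma_add, ma_add, ma_mul, ma_mul, add_mul]

theorem mulF_smul_left (c : F) (a b : Y → F) : mulF (c • a) b = c • mulF a b := by
  apply ma_injective; rw [ma_mul, ma_smul, ma_smul, ma_mul, smul_mul_assoc]

theorem mulF_zero_right (b : Y → F) : mulF b 0 = 0 := by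
  apply ma_injective; rw [ma_mul, ma_zero, mul_zero]

theorem mulF_add_right (a b c : Y → F) : mulF a (b + c) = mulF a b + mulF a c := by
  apply ma_injective; rw [ma_mul, ma_add, ma_add, ma_mul, ma_mul, mul_add]

theorem mulF_smul_right (c : F) (a b : Y → F) : mulF a (c • b) = c • mulF a b := by
  apply ma_injective; rw [ma_mul, ma_smul, ma_smul, ma_mul, mul_smul_comm]

omit [Finite Y] in
/-- invariance of class sums of a factor under the join -/
theorem clsum_conj {K K' : Subgroup Y} (hc : ∀ x ∈ K, ∀ y ∈ K', x * y = y * x) {x : Y}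
    (hx : x ∈ K) {q : Y} (hq : q ∈ K ⊔ K') (t : Y) :
    clsum F K x (q * t * q⁻¹) = clsum F K x t := by
  classical
  obtain ⟨g, hg, g', hg', rfl⟩ := mem_sup_comm hc hq
  have key : ∀ a : Y, (∃ k ∈ K, a = k * x * k⁻¹) → ∀ g ∈ K, ∀ g' ∈ K',
      ∃ k ∈ K, (g * g') * a * (g * g')⁻¹ = k * x * k⁻¹ := by
    rintro a ⟨k, hk, rfl⟩ g hg g' hg'
    refine ⟨g * k, K.mul_mem hg hk, ?_⟩
    have h1 : k * x * k⁻¹ ∈ K := K.mul_mem (K.mul_mem hk hx) (K.inv_mem hk)
    have h2 : g' * (k * x * k⁻¹) * g'⁻¹ = k * x * k⁻¹ := by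
      rw [← hc _ h1 g' hg']; group
    calc (g * g') * (k * x * k⁻¹) * (g * g')⁻¹ = g * (g' * (k * x * k⁻¹) * g'⁻¹) * g⁻¹ := by
          group
      _ = g * (k * x * k⁻¹) * g⁻¹ := by rw [h2]
      _ = _ := by group
  unfold clsum
  have e : (∃ k ∈ K, (g * g') * t * (g * g')⁻¹ = k * x * k⁻¹) ↔ ∃ k ∈ K, t = k * x * k⁻¹ := by
    constructor
    · intro h
      have h1 := key _ h g⁻¹ (K.inv_mem hg) g'⁻¹ (K'.inv_mem hg')
      have h2 : (g⁻¹ * g'⁻¹) * ((g * g') * t * (g * g')⁻¹) * (g⁻¹ * g'⁻¹)⁻¹ = t := by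
        have : g⁻¹ * g'⁻¹ = (g * g')⁻¹ := by
          rw [mul_inv_rev, hc g⁻¹ (K.inv_mem hg) g'⁻¹ (K'.inv_mem hg')]
        rw [this]; group
      rw [h2] at h1
      exact h1
    · intro h
      exact key _ h g hg g' hg'
  by_cases h : ∃ k ∈ K, t = k * x * k⁻¹
  · rw [if_pos h, if_pos (e.2 h)]
  · rw [if_neg h, if_neg (fun hh => h (e.1 hh))]

/-- products of class sums of commuting subgroups -/
theorem clsum_mul_clsum {K K' : Subgroup Y} (hc : ∀ x ∈ K, ∀ y ∈ K', x * y = y * x) {x x' : Y}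
    (hx : x ∈ K) (hx' : x' ∈ K') :
    ∃ c : F, mulF (clsum F K x) (clsum F K' x') = c • clsum F (K ⊔ K') (x * x') := by
  classical
  have := Fintype.ofFinite Y
  have hc' : ∀ y ∈ K', ∀ x ∈ K, y * x = x * y := fun y hy x hx => (hc x hx y hy).symm
  refine ⟨mulF (clsum F K x) (clsum F K' x') (x * x'), ?_⟩
  have hinv : ∀ q ∈ K ⊔ K', ∀ y, mulF (clsum F K x) (clsum F K' x') (q * y * q⁻¹) =
      mulF (clsum F K x) (clsum F K' x') y := by
    intro q hq y
    unfold mulF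
    rw [finsum_eq_sum_of_fintype, finsum_eq_sum_of_fintype,
      ← Equiv.sum_comp (MulAut.conj q).toEquiv]
    refine Finset.sum_congr rfl fun t _ => ?_
    have e1 : (MulAut.conj q).toEquiv t = q * t * q⁻¹ := rfl
    rw [e1, clsum_conj hc hx hq]
    congr 1
    have e2 : (q * t * q⁻¹)⁻¹ * (q * y * q⁻¹) = q * (t⁻¹ * y) * q⁻¹ := by group
    rw [e2, clsum_conj hc' hx' (by rw [sup_comm]; exact hq)]
  funext y
  rw [Pi.smul_apply, smul_eq_mul]
  by_cases h : ∃ q ∈ K ⊔ K', y = q * (x * x') * q⁻¹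
  · obtain ⟨q, hq, rfl⟩ := h
    rw [hinv q hq]
    have : clsum F (K ⊔ K') (x * x') (q * (x * x') * q⁻¹) = 1 := by
      unfold clsum; rw [if_pos ⟨q, hq, rfl⟩]
    rw [this, mul_one]
  · have h0 : clsum F (K ⊔ K') (x * x') y = 0 := by
      unfold clsum; rw [if_neg h]
    rw [h0, mul_zero]
    unfold mulF
    rw [finsum_eq_sum_of_fintype]
    refine Finset.sum_eq_zero fun t _ => ?_
    by_cases h1 : ∃ k ∈ K, t = k * x * k⁻¹
    · by_cases h2 : ∃ k ∈ K', t⁻¹ * y = k * x' * k⁻¹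
      · exfalso
        obtain ⟨k, hk, rfl⟩ := h1
        obtain ⟨k', hk', h3⟩ := h2
        apply h
        refine ⟨k * k', Subgroup.mul_mem_sup hk hk', ?_⟩
        have h4 : y = (k * x * k⁻¹) * (k' * x' * k'⁻¹) := by rw [← h3]; group
        rw [h4]
        have a1 : k⁻¹ * k' = k' * k⁻¹ := hc _ (K.inv_mem hk) _ hk'
        have a2 : x * k' = k' * x := hc _ hx _ hk'
        have a3 : k⁻¹ * x' = x' * k⁻¹ := hc _ (K.inv_mem hk) _ hx'
        have a4 : k⁻¹ * k'⁻¹ = k'⁻¹ * k⁻¹ := hc _ (K.inv_mem hk) _ (K'.inv_mem hk')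
        calc (k * x * k⁻¹) * (k' * x' * k'⁻¹) = k * x * (k⁻¹ * k') * x' * k'⁻¹ := by
              simp only [mul_assoc]
          _ = k * (x * k') * (k⁻¹ * x') * k'⁻¹ := by rw [a1]; simp only [mul_assoc]
          _ = k * (k' * x) * (x' * k⁻¹) * k'⁻¹ := by rw [a2, a3]
          _ = k * k' * (x * x') * (k⁻¹ * k'⁻¹) := by simp only [mul_assoc]
          _ = k * k' * (x * x') * (k'⁻¹ * k⁻¹) := by rw [a4]
          _ = k * k' * (x * x') * (k * k')⁻¹ := by rw [mul_inv_rev]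
      · have : clsum F K' x' (t⁻¹ * y) = 0 := by unfold clsum; rw [if_neg h2]
        rw [this, mul_zero]
    · have : clsum F K x t = 0 := by unfold clsum; rw [if_neg h1]
      rw [this, zero_mul]

theorem pck_mul {ℓ : ℕ} (hℓ : ℓ.Prime) {K K' : Subgroup Y}
    (hc : ∀ x ∈ K, ∀ y ∈ K', x * y = y * x) (hZ : ¬ ℓ ∣ Nat.card (K ⊓ K' : Subgroup Y))
    {a b : Y → F} (ha : a ∈ PCK F ℓ K) (hb : b ∈ PCK F ℓ K') : mulF a b ∈ PCK F ℓ (K ⊔ K') := by
  unfold PCK at ha
  induction ha using Submodule.span_induction with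
  | zero => rw [mulF_zero_left]; exact Submodule.zero_mem _
  | add f g _ _ hf hg => rw [mulF_add_left]; exact Submodule.add_mem _ hf hg
  | smul c f _ hf => rw [mulF_smul_left]; exact Submodule.smul_mem _ c hf
  | mem f hf =>
    obtain ⟨x, hx, hd, rfl⟩ := hf
    unfold PCK at hb
    induction hb using Submodule.span_induction with
    | zero => rw [mulF_zero_right]; exact Submodule.zero_mem _
    | add f g _ _ hf hg => rw [mulF_add_right]; exact Submodule.add_mem _ hf hg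
    | smul c f _ hf => rw [mulF_smul_right]; exact Submodule.smul_mem _ c hf
    | mem f hf =>
      obtain ⟨x', hx', hd', rfl⟩ := hf
      obtain ⟨c, hc'⟩ := clsum_mul_clsum (F := F) hc hx hx'
      rw [hc']
      refine Submodule.smul_mem _ c (Submodule.subset_span ⟨x * x', Subgroup.mul_mem_sup hx hx',
        card_cent_sup hℓ hc hZ hx hx' hd hd', rfl⟩)

theorem ext0_mem_pck {ℓ : ℕ} {K : Subgroup Y} {b : K → F} (hb : DZ ℓ b) :
    ext0 K b ∈ PCK F ℓ K := by
  unfold DZ at hb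
  induction hb using Submodule.span_induction with
  | zero => rw [AWR.H39.ext0_zero]; exact Submodule.zero_mem _
  | add f g _ _ hf hg => rw [H46.ext0_add]; exact Submodule.add_mem _ hf hg
  | smul c f _ hf =>
    have : ext0 K (c • f) = c • ext0 K f := by
      funext x
      change _ = c • (ext0 K f x)
      unfold ext0
      by_cases h : x ∈ K
      · rw [dif_pos h, dif_pos h]; rfl
      · rw [dif_neg h, dif_neg h, smul_zero]
    rw [this]; exact Submodule.smul_mem _ c hf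
  | mem f hf =>
    obtain ⟨x, hx, rfl⟩ := hf
    rw [ext0_clsum]
    refine Submodule.subset_span ⟨x, x.2, ?_, rfl⟩
    rw [← H94.card_cent]
    exact hx

/-- CMA (8.2, first half): if all the components have defect zero then `f` has defect zero. -/
theorem cma {ℓ : ℕ} (hF : GoodF ℓ F) {I : Type} [Finite I] (K : I → Subgroup Y)
    (hc : ∀ i j, i ≠ j → ∀ x ∈ K i, ∀ y ∈ K j, x * y = y * x) (hsup : (⨆ i, K i) = ⊤)
    (hZ : ¬ ℓ ∣ Nat.card (Subgroup.center Y)) (f : Y → F) (hf : IsCl f) (f₁ : ∀ i, K i → F)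
    (hff : ∀ i, mulF (ext0 (K i) (f₁ i)) f = f) (hDZ : ∀ i, DZ ℓ (f₁ i)) : DZ ℓ f := by
  classical
  have := Fintype.ofFinite I
  have hcs : ∀ (s : Finset I) (i : I), i ∉ s → ∀ x ∈ K i, ∀ y ∈ (⨆ j ∈ s, K j), x * y = y * x := by
    intro s i hi x hx y hy
    have h1 : (⨆ j ∈ s, K j) ≤ Subgroup.centralizer ({x} : Set Y) := by
      refine iSup₂_le fun j hj z hz => ?_
      rw [Subgroup.mem_centralizer_singleton_iff]
      have hij : i ≠ j := fun h => hi (h ▸ hj)
      exact (hc i j hij x hx z hz).symm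
    exact (Subgroup.mem_centralizer_singleton_iff.1 (h1 hy)).symm
  have key : ∀ s : Finset I, ∃ P ∈ PCK F ℓ (⨆ j ∈ s, K j), mulF P f = f := by
    intro s
    induction s using Finset.induction_on with
    | empty =>
      refine ⟨dl F 1, ?_, H46.one_mulF f⟩
      rw [← H46.clsum_one (⨆ j ∈ (∅ : Finset I), K j)]
      refine Submodule.subset_span ⟨1, Subgroup.one_mem _, ?_, rfl⟩
      have : (⨆ j ∈ (∅ : Finset I), K j) = ⊥ := by simp
      rw [this, inf_bot_eq, Subgroup.card_bot]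
      exact fun h => hF.prime.one_lt.ne' (Nat.dvd_one.1 h)
    | insert i s hi ih =>
      obtain ⟨P, hP, hPf⟩ := ih
      refine ⟨mulF (ext0 (K i) (f₁ i)) P, ?_, ?_⟩
      · rw [Finset.iSup_insert]
        refine pck_mul hF.prime (hcs s i hi) ?_ (ext0_mem_pck (hDZ i)) hP
        intro hdvd
        apply hZ
        refine hdvd.trans (Subgroup.card_dvd_of_le ?_)
        rintro z ⟨hz1, hz2⟩
        rw [Subgroup.mem_center_iff]
        intro y
        have h1 : (⊤ : Subgroup Y) ≤ Subgroup.centralizer ({z} : Set Y) := by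
          rw [← hsup]
          refine iSup_le fun j w hw => ?_
          rw [Subgroup.mem_centralizer_singleton_iff]
          by_cases hij : j = i
          · subst hij
            exact hcs s j hi w hw z hz2
          · exact hc j i hij w hw z hz1
        exact Subgroup.mem_centralizer_singleton_iff.1 (h1 (Subgroup.mem_top y))
      · rw [mulF_assoc, hPf, hff]
  obtain ⟨P, hP, hPf⟩ := key Finset.univ
  have h1 : (⨆ j ∈ (Finset.univ : Finset I), K j) = ⊤ := by
    rw [← hsup]; simp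
  rw [h1] at hP
  have h2 : PCK F ℓ (⊤ : Subgroup Y) = PC F ℓ Y := by
    unfold PCK PC
    congr 1
    ext g
    constructor
    · rintro ⟨x, _, hx, rfl⟩
      rw [inf_top_eq] at hx
      exact ⟨x, hx, rfl⟩
    · rintro ⟨x, hx, rfl⟩
      exact ⟨x, Subgroup.mem_top x, by rwa [inf_top_eq], rfl⟩
  rw [h2] at hP
  have h3 := pc_mul hF.char hP hf
  rw [hPf] at h3
  exact h3

end alg

end Pool.Agent.PP.H87
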